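import Mathlib

set_option autoImplicit false

/-!
Riemannian metrics on a vector space `E` (written in the global linear coordinates of `E`), their
Levi-Civita connection, sectional curvature, Riemannian distance and completeness; annuli immersed
in `E`, with their area, boundary length and mean curvature.
-/

namespace Pool.Agent.H537R3.Iso

open Set Filter Topology
open scoped ContDiff

variable {E : Type} [NormedAddCommGroup E] [NormedSpace ℝ E]

/-- `g` is a smooth Riemannian metric on the vector space `E`: `g p` is the inner product of the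
tangent space `E` at the point `p`; all coefficients `p ↦ g p v w` (for fixed tangent vectors
`v, w`) are smooth, and each `g p` is symmetric and positive definite. -/
structure IsRiemannianMetric (g : E → LinearMap.BilinForm ℝ E) : Prop where
  smooth : ∀ v w : E, ContDiff ℝ ∞ (fun p => g p v w)
  symm : ∀ p v w : E, g p v w = g p w v
  pos : ∀ p v : E, v ≠ 0 → 0 < g p v v

/-- The derivative at `p`, in the direction `u`, of the metric coefficient `q ↦ g q v w`
(`v` and `w` are constant vector fields). -/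
noncomputable def metricDeriv (g : E → LinearMap.BilinForm ℝ E) (p u v w : E) : ℝ :=
  fderiv ℝ (fun q => g q v w) p u

/-- The vector `c` is `∇_v w` at the point `p`, where `∇` is the Levi-Civita connection of
`g` and `v, w` are constant vector fields: this is the Koszul formula. -/
def IsLeviCivitaValue (g : E → LinearMap.BilinForm ℝ E) (p v w c : E) : Prop :=
  ∀ u : E, 2 * g p c u = metricDeriv g p v w u + metricDeriv g p w v u - metricDeriv g p u v w

/-- `christoffel g p v w = ∇_v w` at `p` for the constant vector fields `v, w` (the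
Christoffel symbols of the Levi-Civita connection); for a Riemannian metric on a
finite-dimensional space it is the unique vector satisfying the Koszul formula. -/
noncomputable def christoffel (g : E → LinearMap.BilinForm ℝ E) (p v w : E) : E :=
  Classical.epsilon (IsLeviCivitaValue g p v w)

/-- The Riemann curvature tensor `R(X, Y) Z = ∇_X ∇_Y Z - ∇_Y ∇_X Z` at `p`, computed for
the constant (hence commuting) vector fields `X, Y, Z`. -/
noncomputable def curvature (g : E → LinearMap.BilinForm ℝ E) (p X Y Z : E) : E :=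
  (fderiv ℝ (fun q => christoffel g q Y Z) p X + christoffel g p X (christoffel g p Y Z))
    - (fderiv ℝ (fun q => christoffel g q X Z) p Y + christoffel g p Y (christoffel g p X Z))

/-- The sectional curvature at `p` of the real plane spanned by `X` and `Y`. -/
noncomputable def secCurv (g : E → LinearMap.BilinForm ℝ E) (p X Y : E) : ℝ :=
  g p (curvature g p X Y Y) X / (g p X X * g p Y Y - g p X Y ^ 2)

/-- The length of the path `c : [0, 1] → E` for the metric `g`. -/
noncomputable def pathLength (g : E → LinearMap.BilinForm ℝ E) (c : ℝ → E) : ℝ :=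
  ∫ t in (0 : ℝ)..1, Real.sqrt (g (c t) (deriv c t) (deriv c t))

/-- The Riemannian distance: the infimum of the lengths of the `C¹` paths from `p` to `q`. -/
noncomputable def riemDist (g : E → LinearMap.BilinForm ℝ E) (p q : E) : ℝ :=
  sInf (pathLength g '' {c : ℝ → E | ContDiff ℝ 1 c ∧ c 0 = p ∧ c 1 = q})

/-- `(E, g)` is complete: every sequence which is Cauchy for the Riemannian distance converges,
for the Riemannian distance, to a point of `E`. -/
def IsCompleteMetric (g : E → LinearMap.BilinForm ℝ E) : Prop :=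
  ∀ s : ℕ → E, (∀ ε > 0, ∃ n₀ : ℕ, ∀ m ≥ n₀, ∀ n ≥ n₀, riemDist g (s m) (s n) < ε) →
    ∃ p : E, Tendsto (fun n => riemDist g (s n) p) atTop (𝓝 0)

/-- `(E, g)` is a Hadamard manifold all of whose sectional curvatures are at most `k`:
`g` is a smooth complete Riemannian metric on the vector space `E` (which is simply connected,
being contractible), and every sectional curvature is `≤ 0` and `≤ k`. -/
structure IsHadamard (g : E → LinearMap.BilinForm ℝ E) (k : ℝ) : Prop where
  riemannian : IsRiemannianMetric g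
  complete : IsCompleteMetric g
  nonpos : ∀ p X Y : E, LinearIndependent ℝ ![X, Y] → secCurv g p X Y ≤ 0
  bound : ∀ p X Y : E, LinearIndependent ℝ ![X, Y] → secCurv g p X Y ≤ k

/-! ### Annuli

The annulus is `[t₁, t₂] × (ℝ / 2π ℤ)`: a compact connected surface whose boundary consists of the
two circles `{t₁} × (ℝ / 2π ℤ)` and `{t₂} × (ℝ / 2π ℤ)`.  A map from it to `E` is written as a map
`F t θ` which is `2π`-periodic in `θ`. -/

/-- The partial derivative `∂F/∂t`. -/
noncomputable def dt (F : ℝ → ℝ → E) (t θ : ℝ) : E := deriv (fun t' => F t' θ) t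

/-- The partial derivative `∂F/∂θ`. -/
noncomputable def dθ (F : ℝ → ℝ → E) (t θ : ℝ) : E := deriv (fun θ' => F t θ') θ

/-- `F` is a smooth immersion of the compact annulus `[t₁, t₂] × (ℝ / 2π ℤ)` into `E`. -/
structure IsImmersedAnnulus (F : ℝ → ℝ → E) (t₁ t₂ : ℝ) : Prop where
  lt : t₁ < t₂
  smooth : ContDiff ℝ ∞ (fun u : ℝ × ℝ => F u.1 u.2)
  periodic : ∀ t θ : ℝ, F t (θ + 2 * Real.pi) = F t θ
  immersion : ∀ t ∈ Icc t₁ t₂, ∀ θ : ℝ, LinearIndependent ℝ ![dt F t θ, dθ F t θ]

/-- `F` is an embedding of the annulus `[t₁, t₂] × (ℝ / 2π ℤ)`: a smooth immersion that is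
injective on it. -/
structure IsEmbeddedAnnulus (F : ℝ → ℝ → E) (t₁ t₂ : ℝ) : Prop where
  immersed : IsImmersedAnnulus F t₁ t₂
  injective : InjOn (fun u : ℝ × ℝ => F u.1 u.2) (Icc t₁ t₂ ×ˢ Ico 0 (2 * Real.pi))

/-- The area of the annulus in the metric induced by `g`. -/
noncomputable def area (g : E → LinearMap.BilinForm ℝ E) (F : ℝ → ℝ → E) (t₁ t₂ : ℝ) : ℝ :=
  ∫ t in t₁..t₂, ∫ θ in (0 : ℝ)..(2 * Real.pi),
    Real.sqrt (g (F t θ) (dt F t θ) (dt F t θ) * g (F t θ) (dθ F t θ) (dθ F t θ)
      - g (F t θ) (dt F t θ) (dθ F t θ) ^ 2)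

/-- The total length of the two boundary circles of the annulus. -/
noncomputable def boundaryLength (g : E → LinearMap.BilinForm ℝ E) (F : ℝ → ℝ → E)
    (t₁ t₂ : ℝ) : ℝ :=
  (∫ θ in (0 : ℝ)..(2 * Real.pi), Real.sqrt (g (F t₁ θ) (dθ F t₁ θ) (dθ F t₁ θ)))
    + ∫ θ in (0 : ℝ)..(2 * Real.pi), Real.sqrt (g (F t₂ θ) (dθ F t₂ θ) (dθ F t₂ θ))

/-- `ν` is a unit normal of the surface `F` at the point `(t, θ)`. -/
structure IsUnitNormal (g : E → LinearMap.BilinForm ℝ E) (F : ℝ → ℝ → E) (t θ : ℝ) (ν : E) :
    Prop where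
  unit : g (F t θ) ν ν = 1
  orth_t : g (F t θ) (dt F t θ) ν = 0
  orth_θ : g (F t θ) (dθ F t θ) ν = 0

/-- The coefficient `II(∂t, ∂t) = ⟨∇_t ∂_t F, ν⟩` of the second fundamental form. -/
noncomputable def secondTT (g : E → LinearMap.BilinForm ℝ E) (F : ℝ → ℝ → E) (t θ : ℝ)
    (ν : E) : ℝ :=
  g (F t θ) (dt (dt F) t θ + christoffel g (F t θ) (dt F t θ) (dt F t θ)) ν

/-- The coefficient `II(∂t, ∂θ) = ⟨∇_t ∂_θ F, ν⟩` of the second fundamental form. -/
noncomputable def secondTΘ (g : E → LinearMap.BilinForm ℝ E) (F : ℝ → ℝ → E) (t θ : ℝ)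
    (ν : E) : ℝ :=
  g (F t θ) (dt (dθ F) t θ + christoffel g (F t θ) (dt F t θ) (dθ F t θ)) ν

/-- The coefficient `II(∂θ, ∂θ) = ⟨∇_θ ∂_θ F, ν⟩` of the second fundamental form. -/
noncomputable def secondΘΘ (g : E → LinearMap.BilinForm ℝ E) (F : ℝ → ℝ → E) (t θ : ℝ)
    (ν : E) : ℝ :=
  g (F t θ) (dθ (dθ F) t θ + christoffel g (F t θ) (dθ F t θ) (dθ F t θ)) ν

/-- The mean curvature `H = (κ₁ + κ₂) / 2` of the surface `F` at `(t, θ)`, with respect to the
unit normal `ν`: half the trace of the second fundamental form with respect to the first,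
`H = (G L - 2 F M + E N) / (2 (E G - F²))`. -/
noncomputable def meanCurvature (g : E → LinearMap.BilinForm ℝ E) (F : ℝ → ℝ → E) (t θ : ℝ)
    (ν : E) : ℝ :=
  (g (F t θ) (dθ F t θ) (dθ F t θ) * secondTT g F t θ ν
      - 2 * g (F t θ) (dt F t θ) (dθ F t θ) * secondTΘ g F t θ ν
      + g (F t θ) (dt F t θ) (dt F t θ) * secondΘΘ g F t θ ν)
    / (2 * (g (F t θ) (dt F t θ) (dt F t θ) * g (F t θ) (dθ F t θ) (dθ F t θ)
        - g (F t θ) (dt F t θ) (dθ F t θ) ^ 2))

end Pool.Agent.H537R3.Iso
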