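import Mathlib
import Pool.Agent.H537R3.Iso.Defs

set_option autoImplicit false

namespace Pool.Agent.H537R3.Iso

open Set Filter Topology
open scoped ContDiff

/-- Euclidean three-space, with coordinates `(x, y, w)`. -/
abbrev R3 := ℝ × ℝ × ℝ

/-- The metric `e^{-2aw} (dx² + dy²) + dw²` on `ℝ³`: hyperbolic space of curvature `-a²` in
horospherical coordinates. -/
noncomputable def hyp (a : ℝ) (p : R3) : LinearMap.BilinForm ℝ R3 :=
  LinearMap.mk₂ ℝ (fun u v => Real.exp (-2 * a * p.2.2) * (u.1 * v.1 + u.2.1 * v.2.1)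
      + u.2.2 * v.2.2)
    (by intro u u' v; simp; ring) (by intro c u v; simp; ring)
    (by intro u v v'; simp; ring) (by intro c u v; simp; ring)

theorem hyp_apply (a : ℝ) (p u v : R3) :
    hyp a p u v = Real.exp (-2 * a * p.2.2) * (u.1 * v.1 + u.2.1 * v.2.1) + u.2.2 * v.2.2 := rfl

theorem hyp_riem (a : ℝ) : IsRiemannianMetric (hyp a) := by
  refine ⟨?_, ?_, ?_⟩
  · intro v w
    simp only [hyp_apply]
    fun_prop
  · intro p v w
    simp only [hyp_apply]; ring
  · intro p v hv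
    simp only [hyp_apply]
    have he : 0 < Real.exp (-2 * a * p.2.2) := Real.exp_pos _
    rcases eq_or_ne v.2.2 0 with h3 | h3
    · have h12 : v.1 ≠ 0 ∨ v.2.1 ≠ 0 := by
        by_contra hcon
        push Not at hcon
        exact hv (Prod.ext hcon.1 (Prod.ext hcon.2 h3))
      have : 0 < v.1 * v.1 + v.2.1 * v.2.1 := by
        rcases h12 with h | h
        · have := mul_self_pos.mpr h
          nlinarith [mul_self_nonneg v.2.1]
        · have := mul_self_pos.mpr h
          nlinarith [mul_self_nonneg v.1]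
      nlinarith [mul_pos he this, mul_self_nonneg v.2.2]
    · have := mul_self_pos.mpr h3
      nlinarith [mul_nonneg he.le (add_nonneg (mul_self_nonneg v.1) (mul_self_nonneg v.2.1))]

theorem hyp_metricDeriv (a : ℝ) (p u v w : R3) :
    metricDeriv (hyp a) p u v w =
      -2 * a * u.2.2 * Real.exp (-2 * a * p.2.2) * (v.1 * w.1 + v.2.1 * w.2.1) := by
  unfold metricDeriv
  simp only [hyp_apply]
  have h1 : HasFDerivAt (fun q : R3 => q.2.2)
      ((ContinuousLinearMap.snd ℝ ℝ ℝ).comp (ContinuousLinearMap.snd ℝ ℝ (ℝ × ℝ))) p :=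
    ((ContinuousLinearMap.snd ℝ ℝ ℝ).comp (ContinuousLinearMap.snd ℝ ℝ (ℝ × ℝ))).hasFDerivAt
  have h2 := ((h1.const_mul (-2 * a)).exp.mul_const (v.1 * w.1 + v.2.1 * w.2.1)).add_const
    (v.2.2 * w.2.2)
  rw [h2.fderiv]
  simp
  ring

/-- The Christoffel symbols. -/
noncomputable def Gam (a : ℝ) (p v w : R3) : R3 :=
  (-a * (v.2.2 * w.1 + w.2.2 * v.1), -a * (v.2.2 * w.2.1 + w.2.2 * v.2.1),
    a * Real.exp (-2 * a * p.2.2) * (v.1 * w.1 + v.2.1 * w.2.1))

theorem hyp_christoffel (a : ℝ) (p v w : R3) : christoffel (hyp a) p v w = Gam a p v w := by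
  have hG : IsLeviCivitaValue (hyp a) p v w (Gam a p v w) := by
    intro u
    simp only [hyp_metricDeriv, hyp_apply, Gam]
    ring
  have hc : IsLeviCivitaValue (hyp a) p v w (christoffel (hyp a) p v w) :=
    Classical.epsilon_spec ⟨_, hG⟩
  set c := christoffel (hyp a) p v w
  by_contra hne
  have hne' : c - Gam a p v w ≠ 0 := sub_ne_zero.mpr hne
  have h0 := (hyp_riem a).pos p _ hne'
  have h1 := hc (c - Gam a p v w)
  have h2 := hG (c - Gam a p v w)
  have h3 : hyp a p (c - Gam a p v w) (c - Gam a p v w)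
      = hyp a p c (c - Gam a p v w) - hyp a p (Gam a p v w) (c - Gam a p v w) := by
    rw [map_sub (hyp a p) c (Gam a p v w), LinearMap.sub_apply]
  linarith

theorem hyp_fderiv_christoffel (a : ℝ) (p X Y Z : R3) :
    fderiv ℝ (fun q => christoffel (hyp a) q Y Z) p X =
      (0, 0, -2 * a ^ 2 * X.2.2 * Real.exp (-2 * a * p.2.2) * (Y.1 * Z.1 + Y.2.1 * Z.2.1)) := by
  simp only [hyp_christoffel, Gam]
  have h1 : HasFDerivAt (fun q : R3 => q.2.2)
      ((ContinuousLinearMap.snd ℝ ℝ ℝ).comp (ContinuousLinearMap.snd ℝ ℝ (ℝ × ℝ))) p :=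
    ((ContinuousLinearMap.snd ℝ ℝ ℝ).comp (ContinuousLinearMap.snd ℝ ℝ (ℝ × ℝ))).hasFDerivAt
  have h2 := (((h1.const_mul (-2 * a)).exp.const_mul a).mul_const (Y.1 * Z.1 + Y.2.1 * Z.2.1))
  have h3 := (hasFDerivAt_const (𝕜 := ℝ) (-a * (Y.2.2 * Z.1 + Z.2.2 * Y.1)) p).prodMk
    ((hasFDerivAt_const (𝕜 := ℝ) (-a * (Y.2.2 * Z.2.1 + Z.2.2 * Y.2.1)) p).prodMk h2)
  rw [h3.fderiv]
  simp
  ring

theorem hyp_curv (a : ℝ) (p X Y : R3) :
    hyp a p (curvature (hyp a) p X Y Y) X =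
      -a ^ 2 * (hyp a p X X * hyp a p Y Y - hyp a p X Y ^ 2) := by
  unfold curvature
  rw [hyp_fderiv_christoffel, hyp_fderiv_christoffel]
  simp only [hyp_christoffel, Gam, hyp_apply]
  simp only [Prod.fst_add, Prod.snd_add, Prod.fst_sub, Prod.snd_sub]
  ring

theorem hyp_gram_pos (a : ℝ) (p X Y : R3) (h : LinearIndependent ℝ ![X, Y]) :
    0 < hyp a p X X * hyp a p Y Y - hyp a p X Y ^ 2 := by
  have hY : Y ≠ 0 := by
    intro hY
    have := h.ne_zero 1
    simp [hY] at this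
  have hYY := (hyp_riem a).pos p Y hY
  -- the vector Z = <Y,Y> X - <X,Y> Y
  have hZ : hyp a p Y Y • X - hyp a p X Y • Y ≠ 0 := by
    intro hZ
    have h2 := (LinearIndependent.pair_iff.mp h) (hyp a p Y Y) (-hyp a p X Y) (by
      rw [neg_smul, ← sub_eq_add_neg]; exact hZ)
    exact hYY.ne' h2.1
  have hpos := (hyp_riem a).pos p _ hZ
  have hexp : hyp a p (hyp a p Y Y • X - hyp a p X Y • Y) (hyp a p Y Y • X - hyp a p X Y • Y)
      = hyp a p Y Y * (hyp a p X X * hyp a p Y Y - hyp a p X Y ^ 2) := by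
    simp only [map_sub, map_smul, LinearMap.sub_apply, LinearMap.smul_apply, smul_eq_mul]
    rw [(hyp_riem a).symm p Y X]
    ring
  rw [hexp] at hpos
  exact (mul_pos_iff_of_pos_left hYY).mp hpos

theorem hyp_secCurv (a : ℝ) (p X Y : R3) (h : LinearIndependent ℝ ![X, Y]) :
    secCurv (hyp a) p X Y = -a ^ 2 := by
  unfold secCurv
  rw [hyp_curv]
  have := hyp_gram_pos a p X Y h
  field_simp

end Pool.Agent.H537R3.Iso
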