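import Mathlib
import Pool.Agent.H537R3.Iso.Metric

set_option autoImplicit false

namespace Pool.Agent.H537R3.Iso

open Set Filter Topology
open scoped ContDiff

/-- The speed of a path for the metric `hyp a`. -/
noncomputable def speed (a : ℝ) (c : ℝ → R3) (t : ℝ) : ℝ :=
  Real.sqrt (hyp a (c t) (deriv c t) (deriv c t))

theorem speed_nonneg (a : ℝ) (c : ℝ → R3) (t : ℝ) : 0 ≤ speed a c t := Real.sqrt_nonneg _

theorem speed_continuous (a : ℝ) (c : ℝ → R3) (hc : ContDiff ℝ 1 c) :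
    Continuous (speed a c) := by
  unfold speed
  have h1 : Continuous (deriv c) := hc.continuous_deriv le_rfl
  have h0 : Continuous c := hc.continuous
  simp only [hyp_apply]
  fun_prop

theorem pathLength_eq (a : ℝ) (c : ℝ → R3) :
    pathLength (hyp a) c = ∫ t in (0 : ℝ)..1, speed a c t := rfl

theorem pathLength_nonneg (a : ℝ) (c : ℝ → R3) : 0 ≤ pathLength (hyp a) c := by
  rw [pathLength_eq]
  exact intervalIntegral.integral_nonneg zero_le_one fun t _ => speed_nonneg a c t

theorem abs_w_le_speed (a : ℝ) (c : ℝ → R3) (t : ℝ) : |(deriv c t).2.2| ≤ speed a c t := by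
  unfold speed
  rw [← Real.sqrt_sq_eq_abs]
  apply Real.sqrt_le_sqrt
  rw [hyp_apply]
  have : 0 ≤ Real.exp (-2 * a * (c t).2.2) *
      ((deriv c t).1 * (deriv c t).1 + (deriv c t).2.1 * (deriv c t).2.1) :=
    mul_nonneg (Real.exp_pos _).le (add_nonneg (mul_self_nonneg _) (mul_self_nonneg _))
  nlinarith

theorem abs_x_le_speed (a : ℝ) (c : ℝ → R3) (t B : ℝ) (hB : |(c t).2.2| ≤ B) :
    |(deriv c t).1| ≤ Real.exp (|a| * B) * speed a c t ∧
    |(deriv c t).2.1| ≤ Real.exp (|a| * B) * speed a c t := by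
  have key : ∀ x y : ℝ, x ^ 2 ≤ y ^ 2 → 0 ≤ y → |x| ≤ y := fun x y h hy => abs_le_of_sq_le_sq h hy
  have hs : speed a c t ^ 2 = hyp a (c t) (deriv c t) (deriv c t) := by
    unfold speed
    apply Real.sq_sqrt
    rw [hyp_apply]
    have : 0 ≤ Real.exp (-2 * a * (c t).2.2) *
        ((deriv c t).1 * (deriv c t).1 + (deriv c t).2.1 * (deriv c t).2.1) :=
      mul_nonneg (Real.exp_pos _).le (add_nonneg (mul_self_nonneg _) (mul_self_nonneg _))
    nlinarith [mul_self_nonneg (deriv c t).2.2]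
  have h1 : 1 ≤ Real.exp (|a| * B) ^ 2 * Real.exp (-2 * a * (c t).2.2) := by
    rw [← Real.exp_nat_mul, ← Real.exp_add]
    apply Real.one_le_exp
    have : a * (c t).2.2 ≤ |a| * B := by
      calc a * (c t).2.2 ≤ |a * (c t).2.2| := le_abs_self _
        _ = |a| * |(c t).2.2| := abs_mul _ _
        _ ≤ |a| * B := mul_le_mul_of_nonneg_left hB (abs_nonneg a)
    push_cast
    linarith
  have h2 : (deriv c t).1 ^ 2 + (deriv c t).2.1 ^ 2 ≤ (Real.exp (|a| * B) * speed a c t) ^ 2 := by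
    rw [mul_pow, hs, hyp_apply]
    have hE : 0 ≤ Real.exp (|a| * B) ^ 2 := by positivity
    nlinarith [mul_le_mul_of_nonneg_right h1
      (add_nonneg (sq_nonneg (deriv c t).1) (sq_nonneg (deriv c t).2.1)),
      mul_nonneg hE (mul_self_nonneg (deriv c t).2.2)]
  have h3 : 0 ≤ Real.exp (|a| * B) * speed a c t :=
    mul_nonneg (Real.exp_pos _).le (speed_nonneg a c t)
  exact ⟨key _ _ (by nlinarith [sq_nonneg (deriv c t).2.1]) h3,
    key _ _ (by nlinarith [sq_nonneg (deriv c t).1]) h3⟩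

theorem abs_sub_le_of_deriv (f : ℝ → ℝ) (f' : ℝ → ℝ) (φ : ℝ → ℝ) (hf : ∀ t, HasDerivAt f (f' t) t)
    (hf' : Continuous f') (hφ : Continuous φ) {t : ℝ} (ht : 0 ≤ t)
    (hb : ∀ s ∈ Icc (0 : ℝ) t, |f' s| ≤ φ s) : |f t - f 0| ≤ ∫ s in (0 : ℝ)..t, φ s := by
  rw [← intervalIntegral.integral_eq_sub_of_hasDerivAt (fun s _ => hf s)
    (hf'.intervalIntegrable _ _)]
  calc |∫ s in (0 : ℝ)..t, f' s| ≤ ∫ s in (0 : ℝ)..t, |f' s| :=
        intervalIntegral.abs_integral_le_integral_abs ht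
    _ ≤ ∫ s in (0 : ℝ)..t, φ s :=
        intervalIntegral.integral_mono_on ht (hf'.abs.intervalIntegrable _ _)
          (hφ.intervalIntegrable _ _) hb

theorem path_bound (a : ℝ) (c : ℝ → R3) (hc : ContDiff ℝ 1 c) :
    |(c 1).2.2 - (c 0).2.2| ≤ pathLength (hyp a) c ∧
    dist (c 1) (c 0) ≤
      Real.exp (|a| * (|(c 0).2.2| + pathLength (hyp a) c)) * pathLength (hyp a) c := by
  have hd : ∀ t, HasDerivAt c (deriv c t) t := fun t =>
    (hc.differentiable one_ne_zero).differentiableAt.hasDerivAt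
  have hdc : Continuous (deriv c) := hc.continuous_deriv le_rfl
  have h1 : ∀ t, HasDerivAt (fun s => (c s).1) (deriv c t).1 t := fun t => (hd t).fst
  have h23 : ∀ t, HasDerivAt (fun s => (c s).2) (deriv c t).2 t := fun t => (hd t).snd
  have h2 : ∀ t, HasDerivAt (fun s => (c s).2.1) (deriv c t).2.1 t := fun t => (h23 t).fst
  have h3 : ∀ t, HasDerivAt (fun s => (c s).2.2) (deriv c t).2.2 t := fun t => (h23 t).snd
  have hsp := speed_continuous a c hc
  set ℓ := pathLength (hyp a) c with hℓ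
  have hℓ0 : 0 ≤ ℓ := pathLength_nonneg a c
  have hpart : ∀ t ∈ Icc (0 : ℝ) 1, ∫ s in (0 : ℝ)..t, speed a c s ≤ ℓ := by
    intro t ht
    rw [hℓ, pathLength_eq]
    exact intervalIntegral.integral_mono_interval le_rfl ht.1 ht.2
      (Eventually.of_forall fun s => speed_nonneg a c s) (hsp.intervalIntegrable _ _)
  have hw : ∀ t ∈ Icc (0 : ℝ) 1, |(c t).2.2 - (c 0).2.2| ≤ ℓ := by
    intro t ht
    refine le_trans ?_ (hpart t ht)
    exact abs_sub_le_of_deriv (fun s => (c s).2.2) (fun s => (deriv c s).2.2) (speed a c) h3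
      (by fun_prop) hsp ht.1 (fun s _ => abs_w_le_speed a c s)
  have hB : ∀ t ∈ Icc (0 : ℝ) 1, |(c t).2.2| ≤ |(c 0).2.2| + ℓ := by
    intro t ht
    have := hw t ht
    calc |(c t).2.2| = |(c 0).2.2 + ((c t).2.2 - (c 0).2.2)| := by ring_nf
      _ ≤ |(c 0).2.2| + |(c t).2.2 - (c 0).2.2| := abs_add_le _ _
      _ ≤ _ := by linarith
  set K := Real.exp (|a| * (|(c 0).2.2| + ℓ)) with hK
  have hK1 : 1 ≤ K := by
    rw [hK]
    apply Real.one_le_exp
    positivity
  have hint : ∫ s in (0 : ℝ)..1, K * speed a c s = K * ℓ := by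
    rw [intervalIntegral.integral_const_mul, hℓ, pathLength_eq]
  have hx : |(c 1).1 - (c 0).1| ≤ K * ℓ := by
    rw [← hint]
    exact abs_sub_le_of_deriv (fun s => (c s).1) (fun s => (deriv c s).1)
      (fun s => K * speed a c s) h1 (by fun_prop) (by fun_prop) zero_le_one
      (fun s hs => (abs_x_le_speed a c s _ (hB s hs)).1)
  have hy : |(c 1).2.1 - (c 0).2.1| ≤ K * ℓ := by
    rw [← hint]
    exact abs_sub_le_of_deriv (fun s => (c s).2.1) (fun s => (deriv c s).2.1)
      (fun s => K * speed a c s) h2 (by fun_prop) (by fun_prop) zero_le_one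
      (fun s hs => (abs_x_le_speed a c s _ (hB s hs)).2)
  have hw1 := hw 1 ⟨zero_le_one, le_rfl⟩
  refine ⟨hw1, ?_⟩
  rw [Prod.dist_eq, Prod.dist_eq, Real.dist_eq, Real.dist_eq, Real.dist_eq]
  refine max_le hx (max_le hy (hw1.trans ?_))
  nlinarith

theorem segment_length (a : ℝ) (p q : R3) (B : ℝ) (hp : |p.2.2| ≤ B) (hq : |q.2.2| ≤ B) :
    riemDist (hyp a) p q ≤ (2 * Real.exp (|a| * B)) * dist p q := by
  unfold riemDist
  have hc : ContDiff ℝ 1 (fun t : ℝ => p + t • (q - p)) := by fun_prop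
  have hder : ∀ t : ℝ, deriv (fun t : ℝ => p + t • (q - p)) t = q - p := by
    intro t
    have : HasDerivAt (fun t : ℝ => p + t • (q - p)) ((1 : ℝ) • (q - p)) t :=
      ((hasDerivAt_id t).smul_const (q - p)).const_add p
    rw [this.deriv, one_smul]
  have hmem : pathLength (hyp a) (fun t : ℝ => p + t • (q - p)) ∈
      pathLength (hyp a) '' {c : ℝ → R3 | ContDiff ℝ 1 c ∧ c 0 = p ∧ c 1 = q} :=
    ⟨_, ⟨hc, by simp, by simp⟩, rfl⟩
  refine (csInf_le ⟨0, ?_⟩ hmem).trans ?_
  · rintro _ ⟨c, _, rfl⟩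
    exact pathLength_nonneg a c
  · rw [pathLength_eq]
    have hbd : ∀ t ∈ Icc (0 : ℝ) 1, speed a (fun t : ℝ => p + t • (q - p)) t ≤
        (2 * Real.exp (|a| * B)) * dist p q := by
      intro t ht
      unfold speed
      rw [hder, hyp_apply]
      have hBt : |(p + t • (q - p)).2.2| ≤ B := by
        have : (p + t • (q - p)).2.2 = (1 - t) * p.2.2 + t * q.2.2 := by
          simp; ring
        rw [this]
        calc |(1 - t) * p.2.2 + t * q.2.2| ≤ |(1 - t) * p.2.2| + |t * q.2.2| := abs_add_le _ _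
          _ = (1 - t) * |p.2.2| + t * |q.2.2| := by
              rw [abs_mul, abs_mul, abs_of_nonneg (sub_nonneg.mpr ht.2), abs_of_nonneg ht.1]
          _ ≤ (1 - t) * B + t * B :=
              add_le_add (mul_le_mul_of_nonneg_left hp (sub_nonneg.mpr ht.2))
                (mul_le_mul_of_nonneg_left hq ht.1)
          _ = B := by ring
      have hd0 : 0 ≤ dist p q := dist_nonneg
      have hx : |(q - p).1| ≤ dist p q := by
        rw [dist_comm, dist_eq_norm]; exact norm_fst_le (q - p)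
      have hy : |(q - p).2.1| ≤ dist p q := by
        rw [dist_comm, dist_eq_norm]
        exact (norm_fst_le (q - p).2).trans (norm_snd_le (q - p))
      have hw : |(q - p).2.2| ≤ dist p q := by
        rw [dist_comm, dist_eq_norm]
        exact (norm_snd_le (q - p).2).trans (norm_snd_le (q - p))
      have hx2 : (q - p).1 * (q - p).1 ≤ dist p q ^ 2 := by
        rw [← pow_two, ← sq_abs]; exact pow_le_pow_left₀ (abs_nonneg _) hx 2
      have hy2 : (q - p).2.1 * (q - p).2.1 ≤ dist p q ^ 2 := by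
        rw [← pow_two, ← sq_abs]; exact pow_le_pow_left₀ (abs_nonneg _) hy 2
      have hw2 : (q - p).2.2 * (q - p).2.2 ≤ dist p q ^ 2 := by
        rw [← pow_two, ← sq_abs]; exact pow_le_pow_left₀ (abs_nonneg _) hw 2
      have hB0 : 0 ≤ B := (abs_nonneg _).trans hp
      have hE : Real.exp (-2 * a * (p + t • (q - p)).2.2) ≤ Real.exp (|a| * B) ^ 2 := by
        rw [← Real.exp_nat_mul]
        apply Real.exp_le_exp.mpr
        have : -(a * (p + t • (q - p)).2.2) ≤ |a| * B := by
          calc -(a * (p + t • (q - p)).2.2) ≤ |a * (p + t • (q - p)).2.2| := neg_le_abs _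
            _ = |a| * |(p + t • (q - p)).2.2| := abs_mul _ _
            _ ≤ |a| * B := mul_le_mul_of_nonneg_left hBt (abs_nonneg a)
        push_cast
        linarith
      have hE1 : 1 ≤ Real.exp (|a| * B) ^ 2 := by
        apply one_le_pow₀
        apply Real.one_le_exp
        positivity
      apply Real.sqrt_le_iff.mpr
      refine ⟨by positivity, ?_⟩
      have hsum0 : 0 ≤ (q - p).1 * (q - p).1 + (q - p).2.1 * (q - p).2.1 :=
        add_nonneg (mul_self_nonneg _) (mul_self_nonneg _)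
      calc Real.exp (-2 * a * (p + t • (q - p)).2.2) *
            ((q - p).1 * (q - p).1 + (q - p).2.1 * (q - p).2.1) + (q - p).2.2 * (q - p).2.2
          ≤ Real.exp (|a| * B) ^ 2 * (dist p q ^ 2 + dist p q ^ 2) +
            Real.exp (|a| * B) ^ 2 * dist p q ^ 2 := by
            refine add_le_add (mul_le_mul hE (add_le_add hx2 hy2) hsum0 (by positivity)) ?_
            nlinarith [sq_nonneg (dist p q)]
        _ ≤ (2 * Real.exp (|a| * B) * dist p q) ^ 2 := by
            have : 0 ≤ Real.exp (|a| * B) ^ 2 * dist p q ^ 2 := by positivity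
            nlinarith
    have hcont : Continuous (speed a (fun t : ℝ => p + t • (q - p))) := speed_continuous a _ hc
    calc ∫ t in (0 : ℝ)..1, speed a (fun t : ℝ => p + t • (q - p)) t
        ≤ ∫ _t in (0 : ℝ)..1, (2 * Real.exp (|a| * B)) * dist p q :=
          intervalIntegral.integral_mono_on zero_le_one (hcont.intervalIntegrable _ _)
            (by simp) hbd
      _ = (2 * Real.exp (|a| * B)) * dist p q := by simp

theorem riemDist_nonneg (a : ℝ) (p q : R3) : 0 ≤ riemDist (hyp a) p q := by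
  unfold riemDist
  apply Real.sInf_nonneg
  rintro _ ⟨c, _, rfl⟩
  exact pathLength_nonneg a c

theorem exists_path (a : ℝ) (p q : R3) (ε : ℝ) (h : riemDist (hyp a) p q < ε) :
    ∃ c : ℝ → R3, ContDiff ℝ 1 c ∧ c 0 = p ∧ c 1 = q ∧ pathLength (hyp a) c < ε := by
  unfold riemDist at h
  have hne : (pathLength (hyp a) '' {c : ℝ → R3 | ContDiff ℝ 1 c ∧ c 0 = p ∧ c 1 = q}).Nonempty :=
    ⟨_, ⟨fun t : ℝ => p + t • (q - p), ⟨by fun_prop, by simp, by simp⟩, rfl⟩⟩
  obtain ⟨_, ⟨c, ⟨h1, h2, h3⟩, rfl⟩, h4⟩ := exists_lt_of_csInf_lt hne h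
  exact ⟨c, h1, h2, h3, h4⟩

theorem hyp_complete (a : ℝ) : IsCompleteMetric (hyp a) := by
  intro s hs
  obtain ⟨N₁, hN₁⟩ := hs 1 one_pos
  set W := |(s N₁).2.2| + 1 with hW
  have hWb : ∀ n ≥ N₁, |(s n).2.2| ≤ W := by
    intro n hn
    obtain ⟨c, hc, h0, h1, hl⟩ := exists_path a _ _ _ (hN₁ N₁ le_rfl n hn)
    have := (path_bound a c hc).1
    rw [h0, h1] at this
    calc |(s n).2.2| = |(s N₁).2.2 + ((s n).2.2 - (s N₁).2.2)| := by ring_nf
      _ ≤ |(s N₁).2.2| + |(s n).2.2 - (s N₁).2.2| := abs_add_le _ _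
      _ ≤ _ := by linarith
  have hC : CauchySeq s := by
    rw [Metric.cauchySeq_iff]
    intro δ hδ
    set K := Real.exp (|a| * (W + 1)) with hK
    have hKpos : 0 < K := Real.exp_pos _
    obtain ⟨N₂, hN₂⟩ := hs (min 1 (δ / K)) (lt_min one_pos (div_pos hδ hKpos))
    refine ⟨max N₁ N₂, fun m hm n hn => ?_⟩
    obtain ⟨c, hc, h0, h1, hl⟩ := exists_path a _ _ _
      (hN₂ n ((le_max_right _ _).trans hn) m ((le_max_right _ _).trans hm))
    have hb := (path_bound a c hc).2
    rw [h0, h1] at hb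
    have hl1 : pathLength (hyp a) c < 1 := hl.trans_le (min_le_left _ _)
    have hl2 : pathLength (hyp a) c < δ / K := hl.trans_le (min_le_right _ _)
    have hl0 := pathLength_nonneg a c
    have hWn := hWb n ((le_max_left _ _).trans hn)
    have hexp : Real.exp (|a| * (|(s n).2.2| + pathLength (hyp a) c)) ≤ K := by
      rw [hK]
      apply Real.exp_le_exp.mpr
      apply mul_le_mul_of_nonneg_left _ (abs_nonneg a)
      linarith
    calc dist (s m) (s n) ≤ _ := hb
      _ ≤ K * pathLength (hyp a) c := mul_le_mul_of_nonneg_right hexp hl0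
      _ < K * (δ / K) := mul_lt_mul_of_pos_left hl2 hKpos
      _ = δ := by field_simp
  obtain ⟨p, hp⟩ := cauchySeq_tendsto_of_complete hC
  refine ⟨p, ?_⟩
  set B := max W |p.2.2| with hB
  have hd : Tendsto (fun n => (2 * Real.exp (|a| * B)) * dist (s n) p) atTop (𝓝 0) := by
    have := (tendsto_iff_dist_tendsto_zero.mp hp).const_mul (2 * Real.exp (|a| * B))
    simpa using this
  refine squeeze_zero' (Eventually.of_forall fun n => riemDist_nonneg a _ _) ?_ hd
  filter_upwards [eventually_ge_atTop N₁] with n hn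
  exact segment_length a (s n) p B ((hWb n hn).trans (le_max_left _ _)) (le_max_right _ _)

theorem hyp_hadamard (a : ℝ) : IsHadamard (hyp a) (-a ^ 2) := by
  refine ⟨hyp_riem a, hyp_complete a, ?_, ?_⟩
  · intro p X Y h
    rw [hyp_secCurv a p X Y h]
    nlinarith [sq_nonneg a]
  · intro p X Y h
    rw [hyp_secCurv a p X Y h]

end Pool.Agent.H537R3.Iso
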