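import Mathlib
import Pool.Agent.H537R3.Iso.Complete

set_option autoImplicit false

namespace Pool.Agent.H537R3.Iso

open Set Filter Topology
open scoped ContDiff

/-- `M(t) = (1 + μ²) cosh t + 2 μ sinh t`. -/
noncomputable def MM (μ t : ℝ) : ℝ := (1 + μ ^ 2) * Real.cosh t + 2 * μ * Real.sinh t

/-- The derivative of `M`. -/
noncomputable def MM' (μ t : ℝ) : ℝ := (1 + μ ^ 2) * Real.sinh t + 2 * μ * Real.cosh t

/-- `m = (1 - μ²) / (2 μ)`. -/
noncomputable def mm (μ : ℝ) : ℝ := (1 - μ ^ 2) / (2 * μ)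

/-- The height function `ζ` of the profile curve. -/
noncomputable def zet (μ t : ℝ) : ℝ := t / μ - Real.log (MM μ t)

/-- The derivative of `ζ`. -/
noncomputable def kap (μ t : ℝ) : ℝ := 2 * mm μ * (Real.cosh t + μ * Real.sinh t) / MM μ t

/-- The derivative of `κ`. -/
noncomputable def kap' (μ t : ℝ) : ℝ :=
  2 * mm μ * ((Real.sinh t + μ * Real.cosh t) * MM μ t
    - (Real.cosh t + μ * Real.sinh t) * MM' μ t) / MM μ t ^ 2

/-- `ρ = R' / z`. -/
noncomputable def rho (μ t : ℝ) : ℝ := mm μ / μ * (Real.cosh t - 2 * μ ^ 2 / MM μ t)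

/-- The derivative of `ρ`. -/
noncomputable def rho' (μ t : ℝ) : ℝ :=
  mm μ / μ * (Real.sinh t + 2 * μ ^ 2 * MM' μ t / MM μ t ^ 2)

/-- `Z = e^ζ`. -/
noncomputable def ZZ (μ t : ℝ) : ℝ := Real.exp (zet μ t)

/-- The radius function of the profile curve. -/
noncomputable def RR (μ t : ℝ) : ℝ := mm μ * Real.cosh t * ZZ μ t

section

variable {μ : ℝ} (h0 : 0 < μ) (h1 : μ < 1)
include h0 h1

theorem MM_pos (t : ℝ) : 0 < MM μ t := by
  have hx : 0 < Real.exp t := Real.exp_pos t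
  have hx' : 0 < Real.exp (-t) := Real.exp_pos _
  unfold MM
  rw [Real.cosh_eq, Real.sinh_eq]
  have : (1 + μ ^ 2) * ((Real.exp t + Real.exp (-t)) / 2) +
      2 * μ * ((Real.exp t - Real.exp (-t)) / 2) =
      ((1 + μ) ^ 2 * Real.exp t + (1 - μ) ^ 2 * Real.exp (-t)) / 2 := by ring
  rw [this]
  have h2 : 0 < (1 + μ) ^ 2 * Real.exp t := by positivity
  have h3 : 0 ≤ (1 - μ) ^ 2 * Real.exp (-t) := by positivity
  linarith

theorem mm_pos : 0 < mm μ := by
  unfold mm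
  apply div_pos _ (by linarith)
  nlinarith

theorem ident1 (t : ℝ) : 1 / μ - MM' μ t / MM μ t = kap μ t := by
  have hM := (MM_pos h0 h1 t).ne'
  have hμ := h0.ne'
  unfold kap mm
  rw [div_sub_div _ _ hμ hM, div_eq_div_iff (mul_ne_zero hμ hM) hM]
  unfold MM MM'
  field_simp
  ring

theorem ident2 (t : ℝ) : mm μ * (Real.sinh t + Real.cosh t * kap μ t) = rho μ t := by
  have hM := (MM_pos h0 h1 t).ne'
  have hμ := h0.ne'
  have hcs := Real.cosh_sq t
  unfold kap rho mm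
  field_simp
  unfold MM
  ring_nf
  simp only [show Real.cosh t ^ 2 = Real.sinh t ^ 2 + 1 from hcs]
  ring

theorem ident3 (t : ℝ) : rho μ t ^ 2 + kap μ t ^ 2 = (mm μ / μ) ^ 2 * Real.cosh t ^ 2 := by
  have hM := (MM_pos h0 h1 t).ne'
  have hμ := h0.ne'
  have hcs := Real.cosh_sq t
  have key : Real.cosh t * MM μ t = μ ^ 2 + (Real.cosh t + μ * Real.sinh t) ^ 2 := by
    unfold MM
    linear_combination (μ ^ 2) * hcs
  unfold kap rho
  field_simp
  linear_combination (-4 * μ ^ 2 * mm μ ^ 2) * key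

omit h0 h1 in
theorem ident4_poly (μ t : ℝ) :
    μ * ((Real.sinh t + μ * Real.cosh t) * Real.cosh t * MM μ t
      - 2 * μ ^ 2 * (Real.sinh t + μ * Real.cosh t)
      - (Real.cosh t + μ * Real.sinh t) * Real.cosh t * MM' μ t
      - (Real.cosh t + μ * Real.sinh t) * Real.sinh t * MM μ t)
    + Real.cosh t * (Real.cosh t + μ * Real.sinh t) * MM μ t
    - (1 - μ ^ 2) * Real.cosh t ^ 2 * MM μ t = 0 := by
  have hx : Real.exp t ≠ 0 := (Real.exp_pos t).ne'
  unfold MM MM'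
  rw [Real.cosh_eq, Real.sinh_eq, Real.exp_neg]
  generalize Real.exp t = x at hx
  field_simp
  ring

theorem ident4 (t : ℝ) :
    (kap' μ t * rho μ t - rho' μ t * kap μ t) / (mm μ / μ * Real.cosh t) ^ 3
      + kap μ t / (mm μ * Real.cosh t * (mm μ / μ * Real.cosh t))
      + 2 * (rho μ t / (mm μ / μ * Real.cosh t)) = 2 := by
  have hM := (MM_pos h0 h1 t).ne'
  have hμ := h0.ne'
  have hm := (mm_pos h0 h1).ne'
  have hc := (Real.cosh_pos t).ne'
  have hmμ : 2 * μ * mm μ = 1 - μ ^ 2 := by unfold mm; field_simp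
  have hP := ident4_poly μ t
  rw [← hmμ] at hP
  unfold kap kap' rho rho'
  generalize Real.cosh t = c at *
  generalize Real.sinh t = s at *
  generalize MM μ t = M at *
  generalize MM' μ t = M' at *
  generalize mm μ = m at *
  field_simp
  linear_combination (μ * M) * hP

/-! ### Derivatives of the profile functions -/

omit h0 h1 in
theorem MM_deriv (μ t : ℝ) : HasDerivAt (MM μ) (MM' μ t) t := by
  unfold MM'
  exact ((Real.hasDerivAt_cosh t).const_mul (1 + μ ^ 2)).add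
    ((Real.hasDerivAt_sinh t).const_mul (2 * μ))

theorem zet_deriv (t : ℝ) : HasDerivAt (zet μ) (kap μ t) t := by
  rw [← ident1 h0 h1 t]
  have h2 : HasDerivAt (fun t : ℝ => t / μ) (1 / μ) t := by
    simpa using (hasDerivAt_id t).div_const μ
  exact h2.sub ((MM_deriv μ t).log (MM_pos h0 h1 t).ne')

theorem ZZ_deriv (t : ℝ) : HasDerivAt (ZZ μ) (ZZ μ t * kap μ t) t :=
  (zet_deriv h0 h1 t).exp

theorem RR_deriv (t : ℝ) : HasDerivAt (RR μ) (ZZ μ t * rho μ t) t := by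
  rw [← ident2 h0 h1 t]
  have h2 := ((Real.hasDerivAt_cosh t).const_mul (mm μ)).mul (ZZ_deriv h0 h1 t)
  exact h2.congr_deriv (by ring)

theorem kap_deriv (t : ℝ) : HasDerivAt (kap μ) (kap' μ t) t := by
  unfold kap'
  have hN : HasDerivAt (fun t => 2 * mm μ * (Real.cosh t + μ * Real.sinh t))
      (2 * mm μ * (Real.sinh t + μ * Real.cosh t)) t :=
    ((Real.hasDerivAt_cosh t).add ((Real.hasDerivAt_sinh t).const_mul μ)).const_mul (2 * mm μ)
  exact (hN.div (MM_deriv μ t) (MM_pos h0 h1 t).ne').congr_deriv (by ring)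

theorem rho_deriv (t : ℝ) : HasDerivAt (rho μ) (rho' μ t) t := by
  unfold rho'
  have hM := (MM_pos h0 h1 t).ne'
  have hN : HasDerivAt (fun t => 2 * μ ^ 2 / MM μ t)
      ((0 * MM μ t - 2 * μ ^ 2 * MM' μ t) / MM μ t ^ 2) t :=
    (hasDerivAt_const t (2 * μ ^ 2)).div (MM_deriv μ t) hM
  exact (((Real.hasDerivAt_cosh t).sub hN).const_mul (mm μ / μ)).congr_deriv (by ring)

theorem kap_pos (t : ℝ) : 0 < kap μ t := by
  unfold kap
  apply div_pos _ (MM_pos h0 h1 t)
  apply mul_pos (mul_pos two_pos (mm_pos h0 h1))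
  have hx : 0 < Real.exp t := Real.exp_pos t
  have hx' : 0 < Real.exp (-t) := Real.exp_pos _
  rw [Real.cosh_eq, Real.sinh_eq]
  have : (Real.exp t + Real.exp (-t)) / 2 + μ * ((Real.exp t - Real.exp (-t)) / 2) =
      ((1 + μ) * Real.exp t + (1 - μ) * Real.exp (-t)) / 2 := by ring
  rw [this]
  have h2 : 0 < (1 + μ) * Real.exp t := by positivity
  have h3 : 0 < (1 - μ) * Real.exp (-t) := mul_pos (by linarith) hx'
  linarith

theorem RR_pos (t : ℝ) : 0 < RR μ t :=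
  mul_pos (mul_pos (mm_pos h0 h1) (Real.cosh_pos t)) (Real.exp_pos _)

end

/-- The surface: a catenoid cousin. -/
noncomputable def surf (a μ t θ : ℝ) : R3 :=
  (RR μ t * Real.cos θ / a, RR μ t * Real.sin θ / a, zet μ t / a)

section

variable {a μ : ℝ} (ha : a ≠ 0) (h0 : 0 < μ) (h1 : μ < 1)

include h0 h1 in
theorem surf_dt : dt (surf a μ) = fun t θ =>
    (ZZ μ t * rho μ t * Real.cos θ / a, ZZ μ t * rho μ t * Real.sin θ / a, kap μ t / a) := by
  funext t θ
  unfold dt surf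
  exact ((((RR_deriv h0 h1 t).mul_const (Real.cos θ)).div_const a).prodMk
    ((((RR_deriv h0 h1 t).mul_const (Real.sin θ)).div_const a).prodMk
      ((zet_deriv h0 h1 t).div_const a))).deriv

theorem surf_dθ : dθ (surf a μ) = fun t θ =>
    (-(RR μ t * Real.sin θ / a), RR μ t * Real.cos θ / a, (0 : ℝ)) := by
  funext t θ
  unfold dθ surf
  have := ((((Real.hasDerivAt_cos θ).const_mul (RR μ t)).div_const a).prodMk
    ((((Real.hasDerivAt_sin θ).const_mul (RR μ t)).div_const a).prodMk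
      (hasDerivAt_const θ (zet μ t / a)))).deriv
  rw [this]
  ext <;> simp
  ring

include h0 h1 in
theorem surf_dtt (t θ : ℝ) : dt (dt (surf a μ)) t θ =
    (ZZ μ t * (kap μ t * rho μ t + rho' μ t) * Real.cos θ / a,
      ZZ μ t * (kap μ t * rho μ t + rho' μ t) * Real.sin θ / a, kap' μ t / a) := by
  rw [surf_dt h0 h1]
  unfold dt
  have h2 : HasDerivAt (fun t => ZZ μ t * rho μ t)
      (ZZ μ t * (kap μ t * rho μ t + rho' μ t)) t := by
    exact ((ZZ_deriv h0 h1 t).mul (rho_deriv h0 h1 t)).congr_deriv (by ring)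
  exact (((h2.mul_const (Real.cos θ)).div_const a).prodMk
    (((h2.mul_const (Real.sin θ)).div_const a).prodMk
      ((kap_deriv h0 h1 t).div_const a))).deriv

include h0 h1 in
theorem surf_dtθ (t θ : ℝ) : dt (dθ (surf a μ)) t θ =
    (-(ZZ μ t * rho μ t * Real.sin θ / a), ZZ μ t * rho μ t * Real.cos θ / a, (0 : ℝ)) := by
  rw [surf_dθ]
  unfold dt
  exact ((((RR_deriv h0 h1 t).mul_const (Real.sin θ)).div_const a).neg.prodMk
    ((((RR_deriv h0 h1 t).mul_const (Real.cos θ)).div_const a).prodMk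
      (hasDerivAt_const t (0 : ℝ)))).deriv

theorem surf_dθθ (t θ : ℝ) : dθ (dθ (surf a μ)) t θ =
    (-(RR μ t * Real.cos θ / a), -(RR μ t * Real.sin θ / a), (0 : ℝ)) := by
  rw [surf_dθ]
  unfold dθ
  have : HasDerivAt (fun θ' : ℝ => ((-(RR μ t * Real.sin θ' / a), RR μ t * Real.cos θ' / a,
      (0 : ℝ)) : R3)) (-(RR μ t * Real.cos θ / a), RR μ t * (-Real.sin θ) / a, (0 : ℝ)) θ :=
    ((((Real.hasDerivAt_sin θ).const_mul (RR μ t)).div_const a).neg.prodMk
    ((((Real.hasDerivAt_cos θ).const_mul (RR μ t)).div_const a).prodMk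
      (hasDerivAt_const θ (0 : ℝ))))
  rw [this.deriv]
  ext <;> simp
  ring

include ha in
theorem hyp_surf (t θ : ℝ) (u v : R3) :
    hyp a (surf a μ t θ) u v = (u.1 * v.1 + u.2.1 * v.2.1) / ZZ μ t ^ 2 + u.2.2 * v.2.2 := by
  rw [hyp_apply]
  have : Real.exp (-2 * a * (surf a μ t θ).2.2) = 1 / ZZ μ t ^ 2 := by
    unfold surf ZZ
    rw [← Real.exp_nat_mul, one_div, ← Real.exp_neg]
    congr 1
    push_cast
    field_simp
  rw [this]
  ring

include ha in
theorem Gam_surf (t θ : ℝ) (v w : R3) :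
    christoffel (hyp a) (surf a μ t θ) v w =
      (-a * (v.2.2 * w.1 + w.2.2 * v.1), -a * (v.2.2 * w.2.1 + w.2.2 * v.2.1),
        a * (v.1 * w.1 + v.2.1 * w.2.1) / ZZ μ t ^ 2) := by
  rw [hyp_christoffel, Gam]
  have : Real.exp (-2 * a * (surf a μ t θ).2.2) = 1 / ZZ μ t ^ 2 := by
    unfold surf ZZ
    rw [← Real.exp_nat_mul, one_div, ← Real.exp_neg]
    congr 1
    push_cast
    field_simp
  rw [this]
  ext <;> simp
  ring

include ha h0 h1 in
theorem gTT (t θ : ℝ) : hyp a (surf a μ t θ) (dt (surf a μ) t θ) (dt (surf a μ) t θ) =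
    (mm μ / μ) ^ 2 * Real.cosh t ^ 2 / a ^ 2 := by
  rw [hyp_surf ha, surf_dt h0 h1, ← ident3 h0 h1 t]
  have hZ : ZZ μ t ≠ 0 := (Real.exp_pos _).ne'
  have hcs := Real.cos_sq_add_sin_sq θ
  simp only
  field_simp
  linear_combination (rho μ t ^ 2) * hcs

include ha h0 h1 in
theorem gTΘ (t θ : ℝ) : hyp a (surf a μ t θ) (dt (surf a μ) t θ) (dθ (surf a μ) t θ) = 0 := by
  rw [hyp_surf ha, surf_dt h0 h1, surf_dθ]
  simp only
  ring

include ha in
theorem gΘΘ (t θ : ℝ) : hyp a (surf a μ t θ) (dθ (surf a μ) t θ) (dθ (surf a μ) t θ) =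
    mm μ ^ 2 * Real.cosh t ^ 2 / a ^ 2 := by
  rw [hyp_surf ha, surf_dθ]
  have hZ : ZZ μ t ≠ 0 := (Real.exp_pos _).ne'
  have hcs := Real.cos_sq_add_sin_sq θ
  simp only [RR]
  field_simp
  linear_combination (mm μ ^ 2 * Real.cosh t ^ 2) * hcs

end

end Pool.Agent.H537R3.Iso
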