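import Mathlib
import Pool.Agent.H537R3.Iso.Surface

set_option autoImplicit false

namespace Pool.Agent.H537R3.Iso

open Set Filter Topology
open scoped ContDiff

theorem mean_alg (a r q σ ρ κ ρ' κ' x : ℝ) (ha : a ≠ 0) (hr : r ≠ 0) (hq : q ≠ 0)
    (h : ρ ^ 2 + κ ^ 2 = q ^ 2) :
    (r ^ 2 / a ^ 2 * (((ρ' - κ * ρ) * (-(σ * κ) / q) + (κ' + ρ ^ 2) * (σ * ρ / q)) / a)
      - 2 * 0 * x + q ^ 2 / a ^ 2 * ((-r * (-(σ * κ) / q) + r ^ 2 * (σ * ρ / q)) / a)) /
      (2 * (q ^ 2 / a ^ 2 * (r ^ 2 / a ^ 2) - 0 ^ 2)) =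
    a * σ * ((κ' * ρ - ρ' * κ) / q ^ 3 + κ / (r * q) + 2 * (ρ / q)) / 2 := by
  field_simp
  linear_combination (r ^ 3 * q ^ 2 * σ * ρ) * h

section

variable {a μ : ℝ} (ha : a ≠ 0) (h0 : 0 < μ) (h1 : μ < 1)

include h0 h1 in
theorem zet_contDiff : ContDiff ℝ ∞ (zet μ) := by
  have hM : ContDiff ℝ ∞ (MM μ) := by
    unfold MM
    fun_prop
  unfold zet
  exact (contDiff_id.div_const μ).sub (hM.log fun t => (MM_pos h0 h1 t).ne')

include h0 h1 in
theorem surf_contDiff : ContDiff ℝ ∞ (fun u : ℝ × ℝ => surf a μ u.1 u.2) := by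
  have hz := zet_contDiff h0 h1
  have hz1 : ContDiff ℝ ∞ (fun u : ℝ × ℝ => zet μ u.1) := hz.comp contDiff_fst
  have hZ : ContDiff ℝ ∞ (fun u : ℝ × ℝ => ZZ μ u.1) := hz1.exp
  have hR : ContDiff ℝ ∞ (fun u : ℝ × ℝ => RR μ u.1) := by
    unfold RR
    fun_prop
  unfold surf
  fun_prop

include ha h0 h1 in
theorem gram_pos (t θ : ℝ) : 0 < (mm μ / μ) ^ 2 * Real.cosh t ^ 2 / a ^ 2 ∧
    0 < mm μ ^ 2 * Real.cosh t ^ 2 / a ^ 2 := by
  have hm := mm_pos h0 h1
  have hc := Real.cosh_pos t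
  have ha2 : 0 < a ^ 2 := by positivity
  constructor <;> positivity

include ha h0 h1 in
theorem surf_immersion (t θ : ℝ) :
    LinearIndependent ℝ ![dt (surf a μ) t θ, dθ (surf a μ) t θ] := by
  rw [LinearIndependent.pair_iff]
  intro x y hxy
  have hE := gTT ha h0 h1 t θ
  have hF := gTΘ ha h0 h1 t θ
  have hG := gΘΘ (μ := μ) ha t θ
  have hpos := gram_pos ha h0 h1 t θ
  have hF' : hyp a (surf a μ t θ) (dθ (surf a μ) t θ) (dt (surf a μ) t θ) = 0 := by
    rw [(hyp_riem a).symm]; exact hF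
  have e1 : hyp a (surf a μ t θ) (x • dt (surf a μ) t θ + y • dθ (surf a μ) t θ)
      (dt (surf a μ) t θ) = 0 := by rw [hxy]; simp
  have e2 : hyp a (surf a μ t θ) (x • dt (surf a μ) t θ + y • dθ (surf a μ) t θ)
      (dθ (surf a μ) t θ) = 0 := by rw [hxy]; simp
  rw [map_add, map_smul, map_smul, LinearMap.add_apply, LinearMap.smul_apply,
    LinearMap.smul_apply, hE, hF', smul_zero, add_zero, smul_eq_mul] at e1
  rw [map_add, map_smul, map_smul, LinearMap.add_apply, LinearMap.smul_apply,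
    LinearMap.smul_apply, hG, hF, smul_zero, zero_add, smul_eq_mul] at e2
  exact ⟨(mul_eq_zero.mp e1).resolve_right hpos.1.ne',
    (mul_eq_zero.mp e2).resolve_right hpos.2.ne'⟩

include h0 h1 in
theorem zet_strictMono : StrictMono (zet μ) := by
  apply strictMono_of_deriv_pos
  intro t
  rw [(zet_deriv h0 h1 t).deriv]
  exact kap_pos h0 h1 t

include ha h0 h1 in
theorem surf_injOn : InjOn (fun u : ℝ × ℝ => surf a μ u.1 u.2)
    (univ ×ˢ Ico 0 (2 * Real.pi)) := by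
  rintro ⟨t, θ⟩ ⟨-, hθ⟩ ⟨t', θ'⟩ ⟨-, hθ'⟩ heq
  simp only [surf, Prod.mk.injEq] at heq
  obtain ⟨e1, e2, e3⟩ := heq
  have ht : t = t' := by
    apply (zet_strictMono h0 h1).injective
    field_simp at e3
    exact e3
  subst ht
  have hR := (RR_pos h0 h1 t).ne'
  have hc : Real.cos θ = Real.cos θ' := by
    field_simp at e1
    exact e1
  have hs : Real.sin θ = Real.sin θ' := by
    field_simp at e2
    exact e2
  have hang : (θ : Real.Angle) = (θ' : Real.Angle) := Real.Angle.cos_sin_inj hc hs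
  have : θ = θ' := by
    rw [Real.Angle.angle_eq_iff_two_pi_dvd_sub] at hang
    obtain ⟨k, hk⟩ := hang
    simp only [mem_Ico] at hθ hθ'
    have hpi := Real.pi_pos
    have hk1 : (k : ℝ) < 1 := by
      by_contra hcon
      push Not at hcon
      nlinarith
    have hk2 : (-1 : ℝ) < k := by
      by_contra hcon
      push Not at hcon
      nlinarith
    have hk0 : k = 0 := by
      have h3 : k < 1 := by exact_mod_cast hk1
      have h4 : -1 < k := by exact_mod_cast hk2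
      omega
    rw [hk0] at hk
    simp at hk
    linarith
  rw [this]

include ha h0 h1 in
/-- A unit normal of the surface. -/
theorem surf_normal (t θ : ℝ) : ∃ ν : R3, IsUnitNormal (hyp a) (surf a μ) t θ ν := by
  have hZ : ZZ μ t ≠ 0 := (Real.exp_pos _).ne'
  have hm := mm_pos h0 h1
  have hc := Real.cosh_pos t
  have hcs := Real.cos_sq_add_sin_sq θ
  set q : ℝ := mm μ / μ * Real.cosh t with hq
  have hq0 : 0 < q := by positivity
  have hρκ : rho μ t ^ 2 + kap μ t ^ 2 = q ^ 2 := by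
    rw [ident3 h0 h1 t, hq]; ring
  clear_value q
  refine ⟨(-(ZZ μ t * kap μ t / q * Real.cos θ), -(ZZ μ t * kap μ t / q * Real.sin θ),
    rho μ t / q), ?_, ?_, ?_⟩
  · rw [hyp_surf ha]
    simp only
    field_simp
    linear_combination hρκ + (kap μ t ^ 2) * hcs
  · rw [hyp_surf ha, surf_dt h0 h1]
    simp only
    field_simp
    linear_combination (-rho μ t * kap μ t) * hcs
  · rw [hyp_surf ha, surf_dθ]
    simp only
    ring

include ha h0 h1 in
/-- The mean curvature of the surface, with respect to any unit normal, is `± a`. -/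
theorem surf_mean (t θ : ℝ) (ν : R3) (hν : IsUnitNormal (hyp a) (surf a μ) t θ ν) :
    |meanCurvature (hyp a) (surf a μ) t θ ν| = |a| := by
  have hZ : ZZ μ t ≠ 0 := (Real.exp_pos _).ne'
  have hZpos : 0 < ZZ μ t := Real.exp_pos _
  have hm := mm_pos h0 h1
  have hc := Real.cosh_pos t
  have hcs := Real.cos_sq_add_sin_sq θ
  obtain ⟨hu, ht, hθ⟩ := hν
  rw [hyp_surf ha] at hu
  rw [hyp_surf ha, surf_dt h0 h1] at ht
  rw [hyp_surf ha, surf_dθ] at hθ
  simp only at ht hθ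
  -- the radial and vertical components of the normal
  set p : ℝ := (Real.cos θ * ν.1 + Real.sin θ * ν.2.1) / ZZ μ t with hp
  set n : ℝ := ν.2.2 with hn
  have hR := RR_pos h0 h1 t
  have hτ : -Real.sin θ * ν.1 + Real.cos θ * ν.2.1 = 0 := by
    have h2 : RR μ t * (-Real.sin θ * ν.1 + Real.cos θ * ν.2.1) = 0 := by
      field_simp at hθ
      linear_combination hθ
    exact (mul_eq_zero.mp h2).resolve_left hR.ne'
  have hp2 : p ^ 2 + n ^ 2 = 1 := by
    rw [← hu, hp]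
    field_simp
    have : (Real.cos θ * ν.1 + Real.sin θ * ν.2.1) ^ 2 = ν.1 ^ 2 + ν.2.1 ^ 2 := by
      linear_combination (ν.1 ^ 2 + ν.2.1 ^ 2) * hcs -
        (-Real.sin θ * ν.1 + Real.cos θ * ν.2.1) * hτ
    rw [this]
  have horth : rho μ t * p + kap μ t * n = 0 := by
    rw [hp]
    field_simp at ht ⊢
    linear_combination ht
  have hpZ : Real.cos θ * ν.1 + Real.sin θ * ν.2.1 = p * ZZ μ t := by
    rw [hp]; field_simp
  -- second fundamental form
  have hTT : secondTT (hyp a) (surf a μ) t θ ν =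
      ((rho' μ t - kap μ t * rho μ t) * p + (kap' μ t + rho μ t ^ 2) * n) / a := by
    unfold secondTT
    rw [surf_dtt h0 h1, Gam_surf ha, hyp_surf ha, surf_dt h0 h1]
    simp only [Prod.fst_add, Prod.snd_add]
    have e : ZZ μ t * (kap μ t * rho μ t + rho' μ t) * Real.cos θ / a +
        -a * (kap μ t / a * (ZZ μ t * rho μ t * Real.cos θ / a) +
          kap μ t / a * (ZZ μ t * rho μ t * Real.cos θ / a)) =
        ZZ μ t * (rho' μ t - kap μ t * rho μ t) * Real.cos θ / a := by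
      field_simp; ring
    have e' : ZZ μ t * (kap μ t * rho μ t + rho' μ t) * Real.sin θ / a +
        -a * (kap μ t / a * (ZZ μ t * rho μ t * Real.sin θ / a) +
          kap μ t / a * (ZZ μ t * rho μ t * Real.sin θ / a)) =
        ZZ μ t * (rho' μ t - kap μ t * rho μ t) * Real.sin θ / a := by
      field_simp; ring
    have e'' : kap' μ t / a + a * (ZZ μ t * rho μ t * Real.cos θ / a *
          (ZZ μ t * rho μ t * Real.cos θ / a) +
          ZZ μ t * rho μ t * Real.sin θ / a * (ZZ μ t * rho μ t * Real.sin θ / a)) / ZZ μ t ^ 2 =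
        (kap' μ t + rho μ t ^ 2) / a := by
      field_simp
      linear_combination (rho μ t ^ 2) * hcs
    rw [e, e', e'']
    field_simp
    linear_combination (rho' μ t - kap μ t * rho μ t) * hpZ
  have hΘΘ : secondΘΘ (hyp a) (surf a μ) t θ ν =
      (-(mm μ * Real.cosh t) * p + (mm μ * Real.cosh t) ^ 2 * n) / a := by
    unfold secondΘΘ
    rw [surf_dθθ, Gam_surf ha, hyp_surf ha, surf_dθ]
    simp only [Prod.fst_add, Prod.snd_add]
    have e'' : (0 : ℝ) + a * (-(RR μ t * Real.sin θ / a) * -(RR μ t * Real.sin θ / a) +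
          RR μ t * Real.cos θ / a * (RR μ t * Real.cos θ / a)) / ZZ μ t ^ 2 =
        (mm μ * Real.cosh t) ^ 2 / a := by
      unfold RR
      field_simp
      linear_combination (mm μ ^ 2 * Real.cosh t ^ 2) * hcs
    rw [e'']
    unfold RR
    field_simp
    linear_combination (-1 : ℝ) * hpZ
  unfold meanCurvature
  rw [gTΘ ha h0 h1, gTT ha h0 h1, gΘΘ ha, hTT, hΘΘ]
  -- the sign
  set q : ℝ := mm μ / μ * Real.cosh t with hq
  have hq0 : 0 < q := by positivity
  have hρκ : rho μ t ^ 2 + kap μ t ^ 2 = q ^ 2 := by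
    rw [ident3 h0 h1 t, hq]; ring
  set σ : ℝ := (rho μ t * n - kap μ t * p) / q with hσ
  have hσq : σ * q = rho μ t * n - kap μ t * p := by rw [hσ]; field_simp
  have hσ2 : σ ^ 2 = 1 := by
    have h2 : (σ * q) ^ 2 = q ^ 2 := by
      rw [hσq]
      linear_combination (p ^ 2 + n ^ 2) * hρκ + q ^ 2 * hp2 -
        (rho μ t * p + kap μ t * n) * horth
    have h3 : (σ ^ 2 - 1) * q ^ 2 = 0 := by linear_combination h2
    have := (mul_eq_zero.mp h3).resolve_right (by positivity)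
    linarith
  have hn' : n = σ * rho μ t / q := by
    field_simp
    have h2 : n * q ^ 2 = σ * q * rho μ t := by
      rw [hσq, ← hρκ]
      linear_combination (kap μ t) * horth
    apply mul_right_cancel₀ hq0.ne'
    linear_combination h2
  have hp' : p = -(σ * kap μ t) / q := by
    field_simp
    have h2 : p * q ^ 2 = -(σ * q * kap μ t) := by
      rw [hσq, ← hρκ]
      linear_combination (rho μ t) * horth
    apply mul_right_cancel₀ hq0.ne'
    linear_combination h2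
  have hid := ident4 h0 h1 t
  rw [← hq] at hid
  have hH : (mm μ ^ 2 * Real.cosh t ^ 2 / a ^ 2 *
        (((rho' μ t - kap μ t * rho μ t) * p + (kap' μ t + rho μ t ^ 2) * n) / a) -
        2 * 0 * secondTΘ (hyp a) (surf a μ) t θ ν +
      (mm μ / μ) ^ 2 * Real.cosh t ^ 2 / a ^ 2 *
        ((-(mm μ * Real.cosh t) * p + (mm μ * Real.cosh t) ^ 2 * n) / a)) /
      (2 * ((mm μ / μ) ^ 2 * Real.cosh t ^ 2 / a ^ 2 * (mm μ ^ 2 * Real.cosh t ^ 2 / a ^ 2) -
        0 ^ 2)) = a * σ * ((kap' μ t * rho μ t - rho' μ t * kap μ t) / q ^ 3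
      + kap μ t / (mm μ * Real.cosh t * q)
      + 2 * (rho μ t / q)) / 2 := by
    have hqq : (mm μ / μ) ^ 2 * Real.cosh t ^ 2 = q ^ 2 := by rw [hq]; ring
    rw [hqq, hn', hp']
    have hmc : 0 < mm μ * Real.cosh t := mul_pos hm hc
    have hmc2 : mm μ ^ 2 * Real.cosh t ^ 2 = (mm μ * Real.cosh t) ^ 2 := by ring
    rw [hmc2]
    exact mean_alg a (mm μ * Real.cosh t) q σ (rho μ t) (kap μ t) (rho' μ t) (kap' μ t) _ ha
      hmc.ne' hq0.ne' hρκ
  rw [hH, hid]
  have h5 : a * σ * 2 / 2 = a * σ := by ring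
  rw [h5, abs_mul]
  have h6 : |σ| = 1 := by
    rw [← Real.sqrt_sq_eq_abs, hσ2, Real.sqrt_one]
  rw [h6, mul_one]

include ha h0 h1 in
theorem surf_length (t : ℝ) :
    ∫ θ in (0 : ℝ)..(2 * Real.pi),
      Real.sqrt (hyp a (surf a μ t θ) (dθ (surf a μ) t θ) (dθ (surf a μ) t θ)) =
    2 * Real.pi * (mm μ * Real.cosh t / |a|) := by
  have hm := mm_pos h0 h1
  have hc := Real.cosh_pos t
  have : ∀ θ : ℝ, Real.sqrt (hyp a (surf a μ t θ) (dθ (surf a μ) t θ) (dθ (surf a μ) t θ)) =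
      mm μ * Real.cosh t / |a| := by
    intro θ
    rw [gΘΘ ha]
    have h2 : mm μ ^ 2 * Real.cosh t ^ 2 / a ^ 2 = (mm μ * Real.cosh t / |a|) ^ 2 := by
      rw [div_pow, sq_abs]; ring
    rw [h2, Real.sqrt_sq (by positivity)]
  simp only [this]
  rw [intervalIntegral.integral_const]
  simp

include ha h0 h1 in
theorem surf_area_ge : 4 * Real.pi * mm μ ^ 2 / (μ * a ^ 2) ≤ area (hyp a) (surf a μ) (-1) 1 := by
  have hm := mm_pos h0 h1
  have hint : ∀ t θ : ℝ, Real.sqrt (hyp a (surf a μ t θ) (dt (surf a μ) t θ) (dt (surf a μ) t θ) *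
      hyp a (surf a μ t θ) (dθ (surf a μ) t θ) (dθ (surf a μ) t θ)
      - hyp a (surf a μ t θ) (dt (surf a μ) t θ) (dθ (surf a μ) t θ) ^ 2) =
      mm μ ^ 2 / (μ * a ^ 2) * Real.cosh t ^ 2 := by
    intro t θ
    rw [gTT ha h0 h1, gΘΘ ha, gTΘ ha h0 h1]
    have h2 : (mm μ / μ) ^ 2 * Real.cosh t ^ 2 / a ^ 2 * (mm μ ^ 2 * Real.cosh t ^ 2 / a ^ 2) -
        0 ^ 2 = (mm μ ^ 2 / (μ * a ^ 2) * Real.cosh t ^ 2) ^ 2 := by
      have := h0.ne'
      field_simp
      ring
    rw [h2, Real.sqrt_sq]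
    have ha2 : 0 < a ^ 2 := by positivity
    positivity
  unfold area
  simp only [hint]
  have h3 : ∀ t : ℝ, ∫ _θ in (0 : ℝ)..(2 * Real.pi), mm μ ^ 2 / (μ * a ^ 2) * Real.cosh t ^ 2 =
      2 * Real.pi * (mm μ ^ 2 / (μ * a ^ 2)) * Real.cosh t ^ 2 := by
    intro t
    rw [intervalIntegral.integral_const]
    simp
    ring
  simp only [h3]
  have ha2 : 0 < a ^ 2 := by positivity
  have hK : 0 ≤ 2 * Real.pi * (mm μ ^ 2 / (μ * a ^ 2)) := by
    have := Real.pi_pos
    positivity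
  have hcont : Continuous (fun t : ℝ => 2 * Real.pi * (mm μ ^ 2 / (μ * a ^ 2)) *
      Real.cosh t ^ 2) := by
    have := Real.continuous_cosh
    fun_prop
  calc 4 * Real.pi * mm μ ^ 2 / (μ * a ^ 2)
      = ∫ _t in (-1 : ℝ)..1, 2 * Real.pi * (mm μ ^ 2 / (μ * a ^ 2)) := by
        rw [intervalIntegral.integral_const]
        simp
        ring
    _ ≤ ∫ t in (-1 : ℝ)..1, 2 * Real.pi * (mm μ ^ 2 / (μ * a ^ 2)) * Real.cosh t ^ 2 := by
        apply intervalIntegral.integral_mono_on (by norm_num) (by simp)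
          (hcont.intervalIntegrable _ _)
        intro t _
        have : 1 ≤ Real.cosh t ^ 2 := one_le_pow₀ (Real.one_le_cosh t)
        nlinarith

end

/-- The main theorem. -/
theorem main (a : ℝ) (ha : a ≠ 0) (C : ℝ) :
    ∃ (g : ℝ × ℝ × ℝ → LinearMap.BilinForm ℝ (ℝ × ℝ × ℝ)) (F : ℝ → ℝ → ℝ × ℝ × ℝ) (t₁ t₂ : ℝ),
      IsHadamard g (-a ^ 2) ∧
      (∀ p X Y : ℝ × ℝ × ℝ, LinearIndependent ℝ ![X, Y] → secCurv g p X Y = -a ^ 2) ∧
      IsEmbeddedAnnulus F t₁ t₂ ∧
      (∀ t ∈ Icc t₁ t₂, ∀ θ : ℝ, (∃ ν, IsUnitNormal g F t θ ν) ∧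
        ∀ ν, IsUnitNormal g F t θ ν → |meanCurvature g F t θ ν| = |a|) ∧
      C * boundaryLength g F t₁ t₂ ^ 2 < area g F t₁ t₂ := by
  have hpi := Real.pi_pos
  have hc1 := Real.cosh_pos 1
  -- choose μ
  set D : ℝ := 4 * Real.pi * Real.cosh 1 ^ 2 * (|C| + 1) with hD
  have hDpos : 0 < D := by positivity
  set μ : ℝ := 1 / (D + 1) with hμ
  have h0 : 0 < μ := by positivity
  have h1 : μ < 1 := by
    rw [hμ, div_lt_one (by linarith)]
    linarith
  have hμD : μ * D < 1 := by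
    rw [hμ, one_div, inv_mul_eq_div, div_lt_one (by linarith)]
    linarith
  have hm := mm_pos h0 h1
  have ha0 : 0 < |a| := abs_pos.mpr ha
  have ha2 : 0 < a ^ 2 := by positivity
  have hL : boundaryLength (hyp a) (surf a μ) (-1) 1 = 4 * Real.pi * (mm μ * Real.cosh 1 / |a|) := by
    unfold boundaryLength
    rw [surf_length ha h0 h1, surf_length ha h0 h1, Real.cosh_neg]
    ring
  refine ⟨hyp a, surf a μ, -1, 1, hyp_hadamard a, hyp_secCurv a, ⟨⟨by norm_num,
    surf_contDiff h0 h1, ?_, fun t _ θ => surf_immersion ha h0 h1 t θ⟩, ?_⟩,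
    fun t _ θ => ⟨surf_normal ha h0 h1 t θ, fun ν hν => surf_mean ha h0 h1 t θ ν hν⟩, ?_⟩
  · intro t θ
    unfold surf
    rw [Real.cos_add_two_pi, Real.sin_add_two_pi]
  · exact (surf_injOn ha h0 h1).mono (prod_mono (subset_univ _) Subset.rfl)
  · refine lt_of_lt_of_le ?_ (surf_area_ge ha h0 h1)
    rw [hL]
    have e1 : C * (4 * Real.pi * (mm μ * Real.cosh 1 / |a|)) ^ 2 =
        (4 * Real.pi * mm μ ^ 2 / (μ * a ^ 2)) * (4 * Real.pi * Real.cosh 1 ^ 2 * C * μ) := by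
      have h2 : (4 * Real.pi * (mm μ * Real.cosh 1 / |a|)) ^ 2 =
          16 * Real.pi ^ 2 * mm μ ^ 2 * Real.cosh 1 ^ 2 / a ^ 2 := by
        rw [mul_pow, div_pow, sq_abs]; ring
      rw [h2]
      have := h0.ne'
      field_simp
      ring
    rw [e1]
    have hX : 0 < 4 * Real.pi * mm μ ^ 2 / (μ * a ^ 2) := by positivity
    have h3 : 4 * Real.pi * Real.cosh 1 ^ 2 * C * μ < 1 := by
      refine lt_of_le_of_lt ?_ hμD
      rw [hD]
      have h4 : C ≤ |C| + 1 := (le_abs_self C).trans (by linarith)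
      have h5 : 0 ≤ 4 * Real.pi * Real.cosh 1 ^ 2 * μ := by positivity
      nlinarith [mul_le_mul_of_nonneg_left h4 h5]
    calc _ < (4 * Real.pi * mm μ ^ 2 / (μ * a ^ 2)) * 1 := mul_lt_mul_of_pos_left h3 hX
      _ = _ := mul_one _

end Pool.Agent.H537R3.Iso
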